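import Pool.Agent.Helper25_CN2.Stmts

/-!
Squad CN2, module I_LFT: the Gram matrix of L from the Gram matrix of M.
-/

noncomputable section

namespace Pool.Agent.CN2.H66

open Pool.Agent.H25Cong Pool.Agent.CON Pool.Agent.CN2

lemma getD_repl (m j : ℕ) : (List.replicate m (0 : ℤ)).getD j 0 = 0 := by
  by_cases h : j < m
  · rw [List.getD_eq_getElem _ _ (by rw [List.length_replicate]; exact h)]
    simp
  · rw [List.getD_eq_default]
    rw [List.length_replicate]
    omega

lemma blk_hyp (G : List (List ℤ)) : blk hyp G =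
    (0 :: -1 :: List.replicate G.length 0) :: (-1 :: 0 :: List.replicate G.length 0) ::
      G.map (fun r => 0 :: 0 :: r) := by
  simp [blk, hyp, List.replicate]

lemma ent_0_0 (G : List (List ℤ)) : ent (blk hyp G) 0 0 = 0 := by
  rw [blk_hyp]; rfl

lemma ent_0_1 (G : List (List ℤ)) : ent (blk hyp G) 0 1 = -1 := by
  rw [blk_hyp]; rfl

lemma ent_1_0 (G : List (List ℤ)) : ent (blk hyp G) 1 0 = -1 := by
  rw [blk_hyp]; rfl

lemma ent_1_1 (G : List (List ℤ)) : ent (blk hyp G) 1 1 = 0 := by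
  rw [blk_hyp]; rfl

lemma ent_0_s (G : List (List ℤ)) (j : ℕ) : ent (blk hyp G) 0 (j + 2) = 0 := by
  rw [blk_hyp]; exact getD_repl _ _

lemma ent_1_s (G : List (List ℤ)) (j : ℕ) : ent (blk hyp G) 1 (j + 2) = 0 := by
  rw [blk_hyp]; exact getD_repl _ _

lemma ent_s (G : List (List ℤ)) (i j : ℕ) (hi : i < G.length) : ent (blk hyp G) (i + 2) j =
    (0 :: 0 :: G.getD i [] : List ℤ).getD j 0 := by
  rw [blk_hyp]
  unfold ent
  have e1 : ((0 :: -1 :: List.replicate G.length 0) :: (-1 :: 0 :: List.replicate G.length 0) ::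
      G.map (fun r => 0 :: 0 :: r) : List (List ℤ)).getD (i + 2) [] =
      (G.map (fun r => 0 :: 0 :: r)).getD i [] := rfl
  have h' : i < (G.map (fun r => 0 :: 0 :: r) : List (List ℤ)).length := by
    rw [List.length_map]; exact hi
  have e2 : (G.map (fun r => 0 :: 0 :: r) : List (List ℤ)).getD i [] = 0 :: 0 :: G.getD i [] := by
    rw [List.getD_eq_getElem _ _ h', List.getElem_map, List.getD_eq_getElem _ _ hi]
  rw [e1, e2]

lemma ent_s_0 (G : List (List ℤ)) (i : ℕ) (hi : i < G.length) :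
    ent (blk hyp G) (i + 2) 0 = 0 := by
  rw [ent_s G i 0 hi]; rfl

lemma ent_s_1 (G : List (List ℤ)) (i : ℕ) (hi : i < G.length) :
    ent (blk hyp G) (i + 2) 1 = 0 := by
  rw [ent_s G i 1 hi]; rfl

lemma ent_s_s (G : List (List ℤ)) (i j : ℕ) (hi : i < G.length) :
    ent (blk hyp G) (i + 2) (j + 2) = ent G i j := by
  rw [ent_s G i (j + 2) hi]; rfl

theorem i_lft : I_LFT := by
  intro n L e f G hL he hf hee hff hef hG hM
  obtain ⟨c', -, hgen, hgr⟩ := hM
  have hfe : B f e = -1 := by rw [B_comm]; exact hef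
  let c : ℕ → V n := fun i => match i with
    | 0 => e
    | 1 => f
    | i + 2 => (c' i : V n)
  have c0 : c 0 = e := rfl
  have c1 : c 1 = f := rfl
  have cs : ∀ i, c (i + 2) = (c' i : V n) := fun _ => rfl
  refine ⟨?_, c, ?_, ?_, ?_⟩
  · rw [blk_hyp]
    simp only [List.length_cons, List.length_map]
    omega
  · intro i _
    match i with
    | 0 => exact he
    | 1 => exact hf
    | i + 2 => exact (c' i).2.1
  · intro x hx
    obtain ⟨k1, hk1⟩ := hL.int x hx e he
    obtain ⟨k2, hk2⟩ := hL.int x hx f hf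
    have hmL : x + ((k2 : ℝ) • e + (k1 : ℝ) • f) ∈ L := by
      refine L.add_mem hx (L.add_mem ?_ ?_)
      · rw [Int.cast_smul_eq_zsmul]; exact L.smul_mem _ he
      · rw [Int.cast_smul_eq_zsmul]; exact L.smul_mem _ hf
    have hmM : x + ((k2 : ℝ) • e + (k1 : ℝ) • f) ∈ Mef L e f := by
      refine ⟨hmL, ?_, ?_⟩
      · rw [B_add_left, B_add_left, B_smul_left, B_smul_left, hee, hfe, hk1]; ring
      · rw [B_add_left, B_add_left, B_smul_left, B_smul_left, hef, hff, hk2]; ring
    have h1 := hgen ⟨_, hmM⟩ (AddSubgroup.mem_top _)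
    have h2 : x + ((k2 : ℝ) • e + (k1 : ℝ) • f) ∈
        AddSubgroup.closure (c '' {i | i < n + 1}) := by
      have h3 : (Mef L e f).subtype ⟨_, hmM⟩ ∈ (AddSubgroup.closure
          (c' '' {i | i < G.length})).map (Mef L e f).subtype :=
        AddSubgroup.mem_map_of_mem _ h1
      rw [AddMonoidHom.map_closure] at h3
      refine AddSubgroup.closure_mono ?_ h3
      rintro _ ⟨_, ⟨i, hi, rfl⟩, rfl⟩
      refine ⟨i + 2, ?_, rfl⟩
      simp only [Set.mem_ofPred_eq] at hi ⊢
      omega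
    have hec : e ∈ AddSubgroup.closure (c '' {i | i < n + 1}) :=
      AddSubgroup.subset_closure ⟨0, by simp only [Set.mem_ofPred_eq]; omega, rfl⟩
    have hfc : f ∈ AddSubgroup.closure (c '' {i | i < n + 1}) :=
      AddSubgroup.subset_closure ⟨1, by simp only [Set.mem_ofPred_eq]; omega, rfl⟩
    have h4 : (k2 : ℝ) • e + (k1 : ℝ) • f ∈ AddSubgroup.closure (c '' {i | i < n + 1}) := by
      refine AddSubgroup.add_mem _ ?_ ?_
      · rw [Int.cast_smul_eq_zsmul]; exact AddSubgroup.zsmul_mem _ hec _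
      · rw [Int.cast_smul_eq_zsmul]; exact AddSubgroup.zsmul_mem _ hfc _
    have h5 := AddSubgroup.sub_mem _ h2 h4
    rwa [add_sub_cancel_right] at h5
  · intro i hi j hj
    match i, j with
    | 0, 0 => rw [ent_0_0, c0, hee, Int.cast_zero]
    | 0, 1 => rw [ent_0_1, c0, c1, hef]; norm_num
    | 1, 0 => rw [ent_1_0, c0, c1, hfe]; norm_num
    | 1, 1 => rw [ent_1_1, c1, hff, Int.cast_zero]
    | 0, j + 2 => rw [ent_0_s, c0, cs, B_comm, (c' j).2.2.1, Int.cast_zero]
    | 1, j + 2 => rw [ent_1_s, c1, cs, B_comm, (c' j).2.2.2, Int.cast_zero]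
    | i + 2, 0 => rw [ent_s_0 G i (by omega), c0, cs, (c' i).2.2.1, Int.cast_zero]
    | i + 2, 1 => rw [ent_s_1 G i (by omega), c1, cs, (c' i).2.2.2, Int.cast_zero]
    | i + 2, j + 2 =>
      rw [ent_s_s G i j (by omega), cs, cs, ← hgr i (by omega) j (by omega)]
      obtain ⟨k, hk⟩ := hL.int _ (c' i).2.1 _ (c' j).2.1
      unfold bG
      rw [hk, Int.floor_intCast]

end Pool.Agent.CN2.H66

end
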