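import Pool.Agent.Helper25_CN2.Stmts

/-!
Squad CN2, modules K_BESS and K_B4S.
-/

noncomputable section

namespace Pool.Agent.CN2.H66

open Pool.Agent.H25Cong Pool.Agent.CON Pool.Agent.CN2

variable {M : Type} [AddCommGroup M]

/-- The trivial information. -/
def TT : ℤ → M → Prop := fun _ _ => True

lemma jr_of_jb {b : M → M → ℤ} {C : Set M} {x : M} {j : ℤ} (h : JB b C x j) :
    JR b (AddSubgroup.closure C) x j TT := by
  rintro t ρ ⟨⟨z, hz, rfl⟩, h0, h4, hd⟩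
  exact ⟨h z hz ρ h0 h4 hd, fun _ => trivial⟩

/-- a big component -/
lemma big_cls (hCap : T_CAP) (hJ2 : E_J2) (hN2 : E_N2) {b : M → M → ℤ} {C : Set M} {s : ℤ}
    {τ : Ty} (hb : PD b) (hC : Irr b C s) (hs : ¬ (2 : ℤ) ∣ s) (hty : HasTy b C s τ)
    (hbig : τ.big) : ∃ x ∈ AddSubgroup.closure C, (4 : ℤ) ∣ b x x ∧
      (∃ y ∈ AddSubgroup.closure C, ¬ (2 : ℤ) ∣ b x y) ∧
      JR b (AddSubgroup.closure C) x 2 TT := by
  obtain ⟨x, hx, h4, y, hy, hxy⟩ := hCap M b C s τ hb hC hs hty hbig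
  exact ⟨x, hx, h4, ⟨y, hy, hxy⟩, jr_of_jb
    (hJ2 M b C x hb hx ((hN2 M b C s hb hC).2.2 x hx ⟨y, hy, hxy⟩) h4)⟩

/-- an even component -/
lemma ev_cls (hJ2 : E_J2) (hN2 : E_N2) {b : M → M → ℤ} {C : Set M} {s : ℤ}
    (hb : PD b) (hC : Irr b C s) (hs : (2 : ℤ) ∣ s) : ∃ x ∈ C, (4 : ℤ) ∣ b x x ∧
      JR b (AddSubgroup.closure C) x 2 TT := by
  obtain ⟨x, hx⟩ := hC.ne
  have h4 : (4 : ℤ) ∣ b x x := by
    rw [hC.norm x hx]
    obtain ⟨k, rfl⟩ := hs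
    exact ⟨k, by ring⟩
  exact ⟨x, hx, h4, jr_of_jb (hJ2 M b C x hb (AddSubgroup.subset_closure hx)
    ((hN2 M b C s hb hC).1 x hx) h4)⟩

/-- a root of an odd component -/
lemma sm_cls (hJ1 : E_J1) (hN2 : E_N2) {b : M → M → ℤ} {C : Set M} {s : ℤ}
    (hb : PD b) (hC : Irr b C s) (hs : ¬ (2 : ℤ) ∣ s) : ∃ x ∈ C, (4 : ℤ) ∣ b x x - 2 ∧
      JR b (AddSubgroup.closure C) x 1 TT := by
  obtain ⟨x, hx⟩ := hC.ne
  have h4 : (4 : ℤ) ∣ b x x - 2 := by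
    rw [hC.norm x hx]
    omega
  exact ⟨x, hx, h4, jr_of_jb (hJ1 M b C x hb (AddSubgroup.subset_closure hx)
    ((hN2 M b C s hb hC).1 x hx))⟩

lemma big_ne {τ τ' : Ty} (h : τ.big) (h' : τ' = .A 1) : τ ≠ τ' := by
  rintro rfl
  subst h'
  have : 4 ≤ 1 := h
  omega

theorem k_bess (hNor : X_NOR) (hCap : T_CAP) (hJ1 : E_J1) (hJ2 : E_J2) (hN2 : E_N2) :
    K_BESS := by
  intro M _ b k C s τ hb hCT hbad i0 i1 i2 i3 h0 hbig h1 h23 h2 t2 h3 t3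
  apply hbad
  obtain ⟨x0, hx0, n0, ⟨y0, hy0, o0⟩, r0⟩ :=
    big_cls hCap hJ2 hN2 hb (hCT.irr i0) h0 (hCT.ty i0) hbig
  obtain ⟨x1, hx1, n1, r1⟩ := ev_cls hJ2 hN2 hb (hCT.irr i1) h1
  obtain ⟨x2, hx2, n2, r2⟩ := sm_cls hJ1 hN2 hb (hCT.irr i2) h2
  obtain ⟨x3, hx3, n3, r3⟩ := sm_cls hJ1 hN2 hb (hCT.irr i3) h3
  have e01 : i0 ≠ i1 := by rintro rfl; exact h0 h1
  have e12 : i1 ≠ i2 := by rintro rfl; exact h2 h1
  have e13 : i1 ≠ i3 := by rintro rfl; exact h3 h1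
  have e02 : i0 ≠ i2 := by rintro rfl; exact big_ne hbig t2 rfl
  have e03 : i0 ≠ i3 := by rintro rfl; exact big_ne hbig t3 rfl
  refine hNor M b k C s τ [(i0, x0, 2, TT), (i1, x1, 2, TT), (i2, x2, 1, TT), (i3, x3, 1, TT)]
    hb hCT ?_ ?_ ?_ ?_ ?_
  · simp only [List.map_cons, List.map_nil, List.nodup_cons, List.mem_cons, List.not_mem_nil,
      or_false, not_or, List.nodup_nil, and_true, not_false_eq_true]
    exact ⟨⟨e01, e02, e03⟩, ⟨e12, e13⟩, h23⟩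
  · intro a ha
    simp only [List.mem_cons, List.not_mem_nil, or_false] at ha
    rcases ha with rfl | rfl | rfl | rfl
    · exact ⟨hx0, r0⟩
    · exact ⟨AddSubgroup.subset_closure hx1, r1⟩
    · exact ⟨AddSubgroup.subset_closure hx2, r2⟩
    · exact ⟨AddSubgroup.subset_closure hx3, r3⟩
  · simp only [List.map_cons, List.map_nil, List.sum_cons, List.sum_nil]
    norm_num
  · simp only [List.map_cons, List.map_nil, List.sum_cons, List.sum_nil]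
    omega
  · exact ⟨(i0, x0, 2, TT), by simp, y0, hy0, o0⟩

theorem k_b4s (hNor : X_NOR) (hCap : T_CAP) (hJ1 : E_J1) (hJ2 : E_J2) (hN2 : E_N2) :
    K_B4S := by
  intro M _ b k C s τ hb hCT hbad i0 j h0 hbig hj hjs
  apply hbad
  obtain ⟨x0, hx0, n0, ⟨y0, hy0, o0⟩, r0⟩ :=
    big_cls hCap hJ2 hN2 hb (hCT.irr i0) h0 (hCT.ty i0) hbig
  have hx : ∀ l, ∃ x ∈ C (j l), (4 : ℤ) ∣ b x x - 2 ∧
      JR b (AddSubgroup.closure (C (j l))) x 1 TT :=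
    fun l => sm_cls hJ1 hN2 hb (hCT.irr (j l)) (hjs l).1
  choose x hxC n r using hx
  have e : ∀ l, i0 ≠ j l := by
    intro l h
    exact big_ne (τ' := τ (j l)) (h ▸ hbig) (hjs l).2 rfl
  have n0' := n 0
  have n1' := n 1
  have n2' := n 2
  have n3' := n 3
  refine hNor M b k C s τ [(i0, x0, 2, TT), (j 0, x 0, 1, TT), (j 1, x 1, 1, TT),
    (j 2, x 2, 1, TT), (j 3, x 3, 1, TT)] hb hCT ?_ ?_ ?_ ?_ ?_
  · simp only [List.map_cons, List.map_nil, List.nodup_cons, List.mem_cons, List.not_mem_nil,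
      or_false, not_or, List.nodup_nil, and_true, not_false_eq_true]
    refine ⟨⟨e 0, e 1, e 2, e 3⟩, ⟨?_, ?_, ?_⟩, ⟨?_, ?_⟩, ?_⟩ <;>
    · intro h
      exact absurd (hj h) (by decide)
  · intro a ha
    simp only [List.mem_cons, List.not_mem_nil, or_false] at ha
    rcases ha with rfl | rfl | rfl | rfl | rfl
    · exact ⟨hx0, r0⟩
    · exact ⟨AddSubgroup.subset_closure (hxC 0), r 0⟩
    · exact ⟨AddSubgroup.subset_closure (hxC 1), r 1⟩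
    · exact ⟨AddSubgroup.subset_closure (hxC 2), r 2⟩
    · exact ⟨AddSubgroup.subset_closure (hxC 3), r 3⟩
  · simp only [List.map_cons, List.map_nil, List.sum_cons, List.sum_nil]
    norm_num
  · simp only [List.map_cons, List.map_nil, List.sum_cons, List.sum_nil]
    omega
  · exact ⟨(i0, x0, 2, TT), by simp, y0, hy0, o0⟩

end Pool.Agent.CN2.H66

end
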